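import Pool.Agent.K3h44.RQ.Stm3
import Pool.Agent.K3h20.RQ.PRIM

/-!
# Project RQ (helper44), brick BERJ: the sum TJ and generalized Bernoulli numbers (helper4)
-/

set_option autoImplicit false

namespace Pool.Agent.K3h4.RQ.BERJ

open Pool.Agent.K3h44.RQ Finset

/-! ### rational numbers of order at least `k` at `p` -/

/-- order at least `k` -/
def O (p k : ℕ) (x : ℚ) : Prop := ∃ a b : ℤ, ¬ (p : ℤ) ∣ b ∧ x * b = (p : ℚ) ^ k * a

section O

variable {p : ℕ} (hp : p.Prime)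
include hp

theorem O_int (a : ℤ) : O p 0 a := ⟨a, 1, by
  intro h
  have := Int.le_of_dvd one_pos h
  have := hp.two_le
  omega, by push_cast; ring⟩

theorem O_nat (a : ℕ) : O p 0 (a : ℚ) := by
  have := O_int hp (a : ℤ)
  rwa [Int.cast_natCast] at this

theorem O_zero (k : ℕ) : O p k 0 := ⟨0, 1, by
  intro h
  have := Int.le_of_dvd one_pos h
  have := hp.two_le
  omega, by push_cast; ring⟩

theorem not_dvd_mul {b b' : ℤ} (h : ¬ (p : ℤ) ∣ b) (h' : ¬ (p : ℤ) ∣ b') : ¬ (p : ℤ) ∣ b * b' := by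
  intro h2
  rcases (Nat.prime_iff_prime_int.1 hp).dvd_or_dvd h2 with h3 | h3
  · exact h h3
  · exact h' h3

theorem O_add {k : ℕ} {x y : ℚ} (hx : O p k x) (hy : O p k y) : O p k (x + y) := by
  obtain ⟨a, b, hb, h⟩ := hx
  obtain ⟨a', b', hb', h'⟩ := hy
  refine ⟨a * b' + a' * b, b * b', not_dvd_mul hp hb hb', ?_⟩
  push_cast
  linear_combination (b' : ℚ) * h + (b : ℚ) * h'

theorem O_mul {k l : ℕ} {x y : ℚ} (hx : O p k x) (hy : O p l y) : O p (k + l) (x * y) := by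
  obtain ⟨a, b, hb, h⟩ := hx
  obtain ⟨a', b', hb', h'⟩ := hy
  refine ⟨a * a', b * b', not_dvd_mul hp hb hb', ?_⟩
  push_cast
  rw [pow_add]
  calc x * y * (b * b') = (x * b) * (y * b') := by ring
    _ = _ := by rw [h, h']; ring

omit hp in
theorem O_neg {k : ℕ} {x : ℚ} (hx : O p k x) : O p k (-x) := by
  obtain ⟨a, b, hb, h⟩ := hx
  refine ⟨-a, b, hb, ?_⟩
  push_cast
  linear_combination -h

theorem O_sub {k : ℕ} {x y : ℚ} (hx : O p k x) (hy : O p k y) : O p k (x - y) := by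
  rw [sub_eq_add_neg]
  exact O_add hp hx (O_neg hy)

theorem O_sum {ι : Type*} (s : Finset ι) {k : ℕ} {f : ι → ℚ} (h : ∀ i ∈ s, O p k (f i)) :
    O p k (∑ i ∈ s, f i) := by
  classical
  induction s using Finset.induction_on with
  | empty => rw [sum_empty]; exact O_zero hp k
  | insert i s hi ih =>
    rw [sum_insert hi]
    exact O_add hp (h i (mem_insert_self _ _)) (ih fun j hj => h j (mem_insert_of_mem hj))

theorem O_pow {x : ℚ} (hx : O p 0 x) (n : ℕ) : O p 0 (x ^ n) := by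
  induction n with
  | zero =>
    rw [pow_zero]
    have := O_int hp 1
    rwa [Int.cast_one] at this
  | succ n ih => rw [pow_succ]; exact O_mul hp ih hx

theorem O_div {k : ℕ} {x : ℚ} {b : ℤ} (hb : ¬ (p : ℤ) ∣ b) (h : O p k (b * x)) : O p k x := by
  obtain ⟨a, c, hc, h⟩ := h
  refine ⟨a, b * c, not_dvd_mul hp hb hc, ?_⟩
  push_cast
  linear_combination h

theorem O_cancel {k : ℕ} {x : ℚ} (h : O p (k + 1) (p * x)) : O p k x := by
  obtain ⟨a, c, hc, h⟩ := h
  refine ⟨a, c, hc, ?_⟩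
  have hp0 : (p : ℚ) ≠ 0 := by exact_mod_cast hp.ne_zero
  apply mul_left_cancel₀ hp0
  rw [pow_succ] at h
  linear_combination h

theorem O_num {x : ℚ} (h : O p 1 x) : (p : ℤ) ∣ x.num := by
  obtain ⟨a, b, hb, h⟩ := h
  rw [pow_one] at h
  have h1 : x * x.den = x.num := Rat.mul_den_eq_num x
  have h2 : x.num * b = p * (a * x.den) := by
    have h3 : (x.num : ℚ) * b = p * (a * x.den) := by
      rw [← h1]
      linear_combination (x.den : ℚ) * h
    exact_mod_cast h3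
  rcases (Nat.prime_iff_prime_int.1 hp).dvd_or_dvd (Dvd.intro _ h2.symm) with h3 | h3
  · exact h3
  · exact absurd h3 hb

theorem O_dvd {k : ℕ} {a : ℤ} (h : (p : ℤ) ^ k ∣ a) : O p k a := by
  obtain ⟨c, rfl⟩ := h
  refine ⟨c, 1, ?_, by push_cast; ring⟩
  intro h
  have := Int.le_of_dvd one_pos h
  have := hp.two_le
  omega

end O

/-! ### Bernoulli numbers -/

theorem O_bernoulli {p : ℕ} (hp : p.Prime) : ∀ i : ℕ, i + 2 ≤ p → O p 0 (bernoulli i) := by
  intro i
  induction i using Nat.strong_induction_on with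
  | _ i ih =>
    intro hi
    have h1 := sum_bernoulli (i + 1)
    rw [sum_range_succ, Nat.choose_succ_self_right] at h1
    have hb : ¬ (p : ℤ) ∣ ((i + 1 : ℕ) : ℤ) := by
      intro h
      have h2 := Nat.le_of_dvd (Nat.succ_pos i) (Int.natCast_dvd_natCast.1 h)
      omega
    refine O_div hp hb ?_
    have h3 : (((i + 1 : ℕ) : ℤ) : ℚ) * bernoulli i =
        (if i + 1 = 1 then 1 else 0) - ∑ k ∈ range i, (((i + 1).choose k : ℕ) : ℚ) * bernoulli k := by
      rw [← h1]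
      push_cast
      ring
    rw [h3]
    refine O_sub hp ?_ (O_sum hp _ fun k hk => ?_)
    · split_ifs
      · have := O_int hp 1
        rwa [Int.cast_one] at this
      · exact O_zero hp 0
    · have hk' := mem_range.1 hk
      exact O_mul hp (O_nat hp _) (ih k hk' (by omega))

/-- the remainder of second order -/
noncomputable def Rf (p : ℕ) (x : ℚ) (s : ℕ) : ℚ :=
  ∑ k ∈ range s, (p : ℚ) ^ (k + 2) / (k + 2 : ℕ) * (s.choose (k + 1) : ℚ) * x ^ (s - (k + 1))

theorem pow_expand (p : ℕ) (x : ℚ) (s : ℕ) :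
    (x + p) ^ (s + 1) - x ^ (s + 1) = (s + 1 : ℕ) * (x ^ s * p + Rf p x s) := by
  rw [add_comm x, add_pow, sum_range_succ', sum_range_succ', Rf, mul_add, mul_sum]
  have h1 : ∑ k ∈ range s, (p : ℚ) ^ (k + 1 + 1) * x ^ (s + 1 - (k + 1 + 1)) *
      ((s + 1).choose (k + 1 + 1) : ℚ) = ∑ k ∈ range s, ((s + 1 : ℕ) : ℚ) *
      ((p : ℚ) ^ (k + 2) / (k + 2 : ℕ) * (s.choose (k + 1) : ℚ) * x ^ (s - (k + 1))) := by
    refine sum_congr rfl fun k _ => ?_
    have h2 : ((s + 1 : ℕ) : ℚ) * (s.choose (k + 1) : ℚ) =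
        ((s + 1).choose (k + 1 + 1) : ℚ) * (k + 2 : ℕ) := by
      exact_mod_cast Nat.add_one_mul_choose_eq s (k + 1)
    have h3 : ((k + 2 : ℕ) : ℚ) ≠ 0 := by positivity
    have h4 : s + 1 - (k + 1 + 1) = s - (k + 1) := by omega
    rw [h4]
    field_simp
    linear_combination -(p : ℚ) ^ (k + 2) * x ^ (s - (k + 1)) * h2
  rw [h1]
  simp only [zero_add, pow_one, pow_zero, Nat.choose_one_right, Nat.choose_zero_right,
    Nat.cast_one, mul_one, one_mul, Nat.sub_zero, Nat.add_sub_cancel]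
  ring

theorem O_Rf {p : ℕ} (hp : p.Prime) (hp2 : p ≠ 2) {x : ℚ} (hx : O p 0 x) {s : ℕ} (hs : s < p) :
    O p 2 (Rf p x s) := by
  refine O_sum hp _ fun k hk => ?_
  have hk' := mem_range.1 hk
  have h1 : O p 2 ((p : ℚ) ^ (k + 2) / (k + 2 : ℕ)) := by
    have h3 : ((k + 2 : ℕ) : ℚ) ≠ 0 := by positivity
    rcases lt_or_eq_of_le (show k + 2 ≤ p by omega) with h | h
    · have hb : ¬ (p : ℤ) ∣ ((k + 2 : ℕ) : ℤ) := by
        intro h
        have h2 := Nat.le_of_dvd (by omega) (Int.natCast_dvd_natCast.1 h)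
        omega
      refine ⟨(p : ℤ) ^ k, ((k + 2 : ℕ) : ℤ), hb, ?_⟩
      push_cast
      push_cast at h3
      field_simp
      ring
    · have hp3 : 3 ≤ p := by
        have := hp.two_le
        omega
      obtain ⟨l, hl⟩ : ∃ l, k = l + 1 := ⟨k - 1, by omega⟩
      refine ⟨(p : ℤ) ^ l, 1, ?_, ?_⟩
      · intro h
        have := Int.le_of_dvd one_pos h
        omega
      · have hpl : p = l + 3 := by omega
        have e1 : (p : ℚ) ^ p = (p : ℚ) ^ (l + 3) := congrArg (fun n : ℕ => (p : ℚ) ^ n) hpl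
        rw [h, e1]
        have hp0 : (p : ℚ) ≠ 0 := by exact_mod_cast hp.ne_zero
        push_cast
        field_simp
        ring
  have h2 := O_mul hp (O_mul hp h1 (O_nat hp (s.choose (k + 1)))) (O_pow hp hx (s - (k + 1)))
  simpa using h2

theorem eval_bern (n : ℕ) (x : ℚ) : (Polynomial.bernoulli n).eval x =
    ∑ i ∈ range (n + 1), _root_.bernoulli i * (n.choose i : ℚ) * x ^ (n - i) := by
  rw [Polynomial.bernoulli, Polynomial.eval_finsetSum]
  refine sum_congr rfl fun i _ => ?_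
  rw [Polynomial.eval_monomial]

theorem bern_diff {p : ℕ} (hp : p.Prime) (hp2 : p ≠ 2) {x : ℚ} (hx : O p 0 x) {n : ℕ}
    (hn : n < p) : ∃ R : ℚ, O p 2 R ∧
    (Polynomial.bernoulli (n + 1)).eval (x + p) - (Polynomial.bernoulli (n + 1)).eval x =
      (n + 1 : ℕ) * (p * (Polynomial.bernoulli n).eval x + R) := by
  refine ⟨∑ i ∈ range n, _root_.bernoulli i * (n.choose i : ℚ) * Rf p x (n - i),
    O_sum hp _ fun i hi => ?_, ?_⟩
  · have hi' := mem_range.1 hi
    have h1 := O_mul hp (O_mul hp (O_bernoulli hp i (by omega)) (O_nat hp (n.choose i)))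
      (O_Rf hp hp2 hx (s := n - i) (by omega))
    simpa using h1
  · have h2 : ∀ i ∈ range (n + 1), _root_.bernoulli i * ((n + 1).choose i : ℚ) *
        (x + p) ^ (n + 1 - i) - _root_.bernoulli i * ((n + 1).choose i : ℚ) * x ^ (n + 1 - i) =
        ((n + 1 : ℕ) : ℚ) * ((p : ℚ) * (_root_.bernoulli i * (n.choose i : ℚ) * x ^ (n - i))) +
        ((n + 1 : ℕ) : ℚ) * (_root_.bernoulli i * (n.choose i : ℚ) * Rf p x (n - i)) := by
      intro i hi
      have hi' := mem_range.1 hi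
      have h3 : n + 1 - i = (n - i) + 1 := by omega
      have h4 := pow_expand p x (n - i)
      have h5 : (n.choose i : ℚ) * ((n + 1 : ℕ) : ℚ) =
          ((n + 1).choose i : ℚ) * ((n - i + 1 : ℕ) : ℚ) := by
        rw [← h3]
        exact_mod_cast Nat.choose_mul_succ_eq n i
      rw [h3, ← mul_sub, h4]
      linear_combination -_root_.bernoulli i * (x ^ (n - i) * p + Rf p x (n - i)) * h5
    have hL : (Polynomial.bernoulli (n + 1)).eval (x + p) -
        (Polynomial.bernoulli (n + 1)).eval x =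
        ∑ i ∈ range (n + 1), (_root_.bernoulli i * ((n + 1).choose i : ℚ) *
        (x + p) ^ (n + 1 - i) - _root_.bernoulli i * ((n + 1).choose i : ℚ) *
        x ^ (n + 1 - i)) := by
      rw [eval_bern, eval_bern, ← sum_sub_distrib, sum_range_succ _ (n + 1), Nat.sub_self,
        pow_zero, pow_zero, sub_self, add_zero]
    have e2 : ∑ i ∈ range (n + 1), (_root_.bernoulli i * (n.choose i : ℚ) * Rf p x (n - i)) =
        ∑ i ∈ range n, (_root_.bernoulli i * (n.choose i : ℚ) * Rf p x (n - i)) := by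
      rw [sum_range_succ, Nat.sub_self]
      have h6 : Rf p x 0 = 0 := by rw [Rf, sum_range_zero]
      rw [h6, mul_zero, add_zero]
    rw [hL, sum_congr rfl h2, sum_add_distrib, ← mul_sum, ← mul_sum, ← mul_sum, e2,
      eval_bern, mul_add]

theorem sum_pow {p : ℕ} (hp : p.Prime) (hp2 : p ≠ 2) {x : ℚ} (hx : O p 0 x) {n : ℕ}
    (hn : n < p) : ∃ R : ℚ, O p 2 R ∧
    ∑ q ∈ range p, (x + q) ^ n = p * (Polynomial.bernoulli n).eval x + R := by
  obtain ⟨R, hR, h⟩ := bern_diff hp hp2 hx hn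
  refine ⟨R, hR, ?_⟩
  have h1 : ∑ q ∈ range p, ((n + 1 : ℕ) : ℚ) * (x + q) ^ n =
      (Polynomial.bernoulli (n + 1)).eval (x + p) - (Polynomial.bernoulli (n + 1)).eval x := by
    have h2 : ∀ q ∈ range p, ((n + 1 : ℕ) : ℚ) * (x + q) ^ n =
        (Polynomial.bernoulli (n + 1)).eval (x + ((q + 1 : ℕ) : ℚ)) -
        (Polynomial.bernoulli (n + 1)).eval (x + (q : ℚ)) := by
      intro q _
      have h3 := Polynomial.bernoulli_eval_one_add (n + 1) (x + q)
      have h4 : x + ((q + 1 : ℕ) : ℚ) = 1 + (x + q) := by push_cast; ring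
      rw [h4, h3, Nat.add_sub_cancel]
      ring
    rw [sum_congr rfl h2, sum_range_sub (fun q : ℕ => (Polynomial.bernoulli (n + 1)).eval
      (x + (q : ℚ)))]
    simp
  rw [← mul_sum, h] at h1
  have h5 : ((n + 1 : ℕ) : ℚ) ≠ 0 := by positivity
  exact mul_left_cancel₀ h5 h1

/-! ### the character -/

/-- the character, zero at the integers not prime to the discriminant -/
def ee (d t : ℕ) : ℤ := if t.Coprime (dsc d) then chi d t else 0

theorem sum_blocks {R : Type*} [AddCommMonoid R] (f : ℕ → R) (D : ℕ) : ∀ n : ℕ,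
    ∑ t ∈ range (D * n), f t = ∑ q ∈ range n, ∑ a ∈ range D, f (D * q + a)
  | 0 => by simp
  | n + 1 => by
    rw [mul_add, mul_one, sum_range_succ, ← sum_blocks f D n, ← sum_range_add]

section ch

variable {d : ℕ} (hd : 1 < d) (hsq : Squarefree d)
include hd hsq

theorem exists_chi : ∃ e : ZMod (dsc d) → ℂ, (∀ t : ℕ, ((ee d t : ℤ) : ℂ) = e (t : ZMod (dsc d))) ∧
    ∃ _ : NeZero (dsc d), ∑ a, e a = 0 := by
  have : NeZero (dsc d) := ⟨by have := Pool.Agent.K3h20.RQ.lt_dsc hd; omega⟩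
  obtain ⟨χ, -, h1, -, h2⟩ := Pool.Agent.K3h20.RQ.t_PRIM d hd hsq
  refine ⟨χ, fun t => ?_, this, MulChar.sum_eq_zero_of_ne_one h1⟩
  unfold ee
  split_ifs with h
  · rw [h2 t h]
  · rw [Int.cast_zero]
    refine (MulChar.map_nonunit χ fun h3 => h ?_).symm
    exact (ZMod.isUnit_iff_coprime t (dsc d)).1 h3

theorem ee_per (a q : ℕ) : ee d (dsc d * q + a) = ee d a := by
  obtain ⟨e, h1, -⟩ := exists_chi hd hsq
  have h2 : ((ee d (dsc d * q + a) : ℤ) : ℂ) = ((ee d a : ℤ) : ℂ) := by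
    rw [h1, h1]
    congr 1
    push_cast
    rw [ZMod.natCast_self]
    ring
  exact_mod_cast h2

theorem ee_sum {p : ℕ} (hp : p.Coprime (dsc d)) (k : ℕ) :
    ∑ r ∈ range (dsc d), ee d (p * r + k) = 0 := by
  obtain ⟨e, h1, hne, h2⟩ := exists_chi hd hsq
  have h3 : ((∑ r ∈ range (dsc d), ee d (p * r + k) : ℤ) : ℂ) = 0 := by
    push_cast
    obtain ⟨u, hu⟩ : ∃ u : (ZMod (dsc d))ˣ, (u : ZMod (dsc d)) = p :=
      ⟨ZMod.unitOfCoprime p hp, ZMod.coe_unitOfCoprime p hp⟩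
    have h4 : ∑ r ∈ range (dsc d), ((ee d (p * r + k) : ℤ) : ℂ) =
        ∑ b : ZMod (dsc d), e ((u : ZMod (dsc d)) * b + k) := by
      refine Finset.sum_nbij' (fun r => (r : ZMod (dsc d))) (fun b => b.val)
        (fun r _ => mem_univ _) (fun b _ => mem_range.2 (ZMod.val_lt b))
        (fun r hr => ZMod.val_natCast_of_lt (mem_range.1 hr))
        (fun b _ => ZMod.natCast_zmod_val b) (fun r _ => ?_)
      rw [h1]
      congr 1
      push_cast
      rw [hu]
    rw [h4]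
    have h7 : ∑ b : ZMod (dsc d), e ((u : ZMod (dsc d)) * b + k) = ∑ b : ZMod (dsc d), e b :=
      Fintype.sum_equiv ((Units.mulLeft u).trans (Equiv.addRight (k : ZMod (dsc d)))) _ _
        fun b => rfl
    rw [h7, h2]
  exact_mod_cast h3

end ch

/-- the sum over the residues of `p` -/
def W (d p n : ℕ) : ℤ := ∑ r ∈ range (dsc d), ∑ k ∈ range p,
  ee d (p * r + k) * ((k : ℤ) ^ (n - 1) * r)

theorem W_cast {d p j n : ℕ} (hp : p.Prime) (hn : 2 ≤ n) (hnj : n + j = p) :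
    ((W d p n : ℤ) : ZMod p) = TJ d p j := by
  have : Fact p.Prime := ⟨hp⟩
  rw [TJ, sum_filter, sum_blocks _ p (dsc d), W, Int.cast_sum]
  refine sum_congr rfl fun r _ => ?_
  rw [Int.cast_sum]
  refine sum_congr rfl fun k hk => ?_
  have hk' := mem_range.1 hk
  have hdiv : (p * r + k) / p = r := by
    rw [Nat.mul_add_div hp.pos, Nat.div_eq_of_lt hk', add_zero]
  have hcast : ((p * r + k : ℕ) : ZMod p) = (k : ZMod p) := by
    push_cast
    rw [ZMod.natCast_self]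
    ring
  rw [hdiv, hcast, Int.cast_mul, Int.cast_mul, Int.cast_pow, Int.cast_natCast, Int.cast_natCast]
  by_cases hk0 : k = 0
  · subst hk0
    have h1 : ¬ (p * r + 0).Coprime (p * dsc d) := by
      intro h
      rw [add_zero] at h
      have h3 : p ∣ 1 := by
        have h5 : p ∣ Nat.gcd (p * r) (p * dsc d) :=
          Nat.dvd_gcd (dvd_mul_right p r) (dvd_mul_right p _)
        rwa [h] at h5
      exact hp.one_lt.ne' (Nat.dvd_one.1 h3)
    rw [if_neg h1, Nat.cast_zero, zero_pow (by omega), zero_mul, mul_zero]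
  · have htp : (p * r + k).Coprime p := by
      refine ((Nat.Prime.coprime_iff_not_dvd hp).2 fun h => ?_).symm
      exact hk0 (Nat.eq_zero_of_dvd_of_lt ((Nat.dvd_add_right (dvd_mul_right p r)).1 h) hk')
    have hiff : (p * r + k).Coprime (p * dsc d) ↔ (p * r + k).Coprime (dsc d) :=
      ⟨fun h => h.coprime_mul_left_right, fun h => htp.mul_right h⟩
    have hkz : (k : ZMod p) ≠ 0 := by
      intro h
      rw [ZMod.natCast_eq_zero_iff] at h
      exact hk0 (Nat.eq_zero_of_dvd_of_lt h hk')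
    have hpow : ((k : ZMod p)⁻¹) ^ j = (k : ZMod p) ^ (n - 1) := by
      have h1 := ZMod.pow_card_sub_one_eq_one hkz
      have h2 : p - 1 = (n - 1) + j := by omega
      rw [h2, pow_add] at h1
      rw [inv_pow]
      exact (eq_inv_of_mul_eq_one_left h1).symm
    unfold ee
    by_cases hc : (p * r + k).Coprime (dsc d)
    · rw [if_pos hc, if_pos (hiff.2 hc), hpow]
      ring
    · rw [if_neg hc, if_neg (fun h => hc (hiff.1 h)), Int.cast_zero, zero_mul]

theorem S_dvd {d p j n : ℕ} (hd : 1 < d) (hsq : Squarefree d) (hp : p.Prime)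
    (hpD : p.Coprime (dsc d)) (hn : 2 ≤ n) (hnj : n + j = p) (hT : TJ d p j = 0) :
    (p : ℤ) ^ 2 ∣ ∑ t ∈ range (dsc d * p), ee d t * (t : ℤ) ^ n := by
  have : Fact p.Prime := ⟨hp⟩
  have hW : (p : ℤ) ∣ W d p n := by
    rw [← ZMod.intCast_zmod_eq_zero_iff_dvd, W_cast hp hn hnj, hT]
  obtain ⟨w, hw⟩ := hW
  rw [mul_comm (dsc d) p, sum_blocks _ p (dsc d)]
  have h1 : ∀ r k : ℕ, ∃ c : ℤ, ee d (p * r + k) * (((p * r + k : ℕ) : ℤ)) ^ n =
      ee d (p * r + k) * (k : ℤ) ^ n + (n * p : ℤ) *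
        (ee d (p * r + k) * ((k : ℤ) ^ (n - 1) * r)) + (p : ℤ) ^ 2 * c := by
    intro r k
    obtain ⟨c, hc⟩ := Polynomial.powAddExpansion (k : ℤ) ((p : ℤ) * r) n
    refine ⟨ee d (p * r + k) * (c * (r : ℤ) ^ 2), ?_⟩
    have h2 : ((p * r + k : ℕ) : ℤ) = (k : ℤ) + (p : ℤ) * r := by push_cast; ring
    rw [h2, hc]
    ring
  choose c hc using h1
  have h2 : ∑ r ∈ range (dsc d), ∑ k ∈ range p, ee d (p * r + k) * (((p * r + k : ℕ) : ℤ)) ^ n =
      (∑ r ∈ range (dsc d), ∑ k ∈ range p, ee d (p * r + k) * (k : ℤ) ^ n) +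
      (n * p : ℤ) * W d p n +
      (p : ℤ) ^ 2 * ∑ r ∈ range (dsc d), ∑ k ∈ range p, c r k := by
    rw [W, mul_sum, mul_sum, ← sum_add_distrib, ← sum_add_distrib]
    refine sum_congr rfl fun r _ => ?_
    rw [mul_sum, mul_sum, ← sum_add_distrib, ← sum_add_distrib]
    exact sum_congr rfl fun k _ => hc r k
  have h3 : ∑ r ∈ range (dsc d), ∑ k ∈ range p, ee d (p * r + k) * (k : ℤ) ^ n = 0 := by
    rw [sum_comm]
    refine sum_eq_zero fun k _ => ?_
    rw [← sum_mul, ee_sum hd hsq hpD, zero_mul]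
  rw [h2, h3, hw]
  exact ⟨n * w + ∑ r ∈ range (dsc d), ∑ k ∈ range p, c r k, by ring⟩

theorem t_BERJ : S_BERJ := by
  intro d p j hd hsq hp hp2 hpD hj hjp hTJ
  obtain ⟨n, hn⟩ : ∃ n, n = p - j := ⟨_, rfl⟩
  rw [← hn]
  have hn2 : 2 ≤ n := by omega
  have hnp : n < p := by omega
  have hnj : n + j = p := by omega
  have hcop : p.Coprime (dsc d) := (Nat.Prime.coprime_iff_not_dvd hp).2 hpD
  have hD1 : 1 < dsc d := Pool.Agent.K3h20.RQ.lt_dsc hd
  have hD0 : (dsc d : ℚ) ≠ 0 := by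
    have : dsc d ≠ 0 := by omega
    exact_mod_cast this
  have hpD' : ¬ (p : ℤ) ∣ ((dsc d : ℕ) : ℤ) := fun h => hpD (Int.natCast_dvd_natCast.1 h)
  have hS := O_dvd hp (S_dvd hd hsq hp hcop hn2 hnj hTJ)
  have hx : ∀ a : ℕ, O p 0 ((a : ℚ) / (dsc d : ℚ)) := by
    intro a
    refine O_div hp hpD' ?_
    have h1 : (((dsc d : ℕ) : ℤ) : ℚ) * ((a : ℚ) / (dsc d : ℚ)) = (a : ℚ) := by
      rw [Int.cast_natCast]
      field_simp
    rw [h1]
    exact O_nat hp a
  have h1 : ∀ a : ℕ, ∃ R : ℚ, O p 2 R ∧ ∑ q ∈ range p, ((a : ℚ) / (dsc d : ℚ) + q) ^ n =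
      p * (Polynomial.bernoulli n).eval ((a : ℚ) / (dsc d : ℚ)) + R := fun a =>
    sum_pow hp hp2 (hx a) hnp
  choose R hR hsum using h1
  -- the sum in terms of the values of the Bernoulli polynomials
  have h2 : ((∑ t ∈ range (dsc d * p), ee d t * (t : ℤ) ^ n : ℤ) : ℚ) =
      ∑ a ∈ range (dsc d), (ee d a : ℚ) * ((dsc d : ℚ) ^ n *
        (p * (Polynomial.bernoulli n).eval ((a : ℚ) / (dsc d : ℚ)) + R a)) := by
    rw [sum_blocks _ (dsc d) p, sum_comm, Int.cast_sum]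
    refine sum_congr rfl fun a _ => ?_
    rw [← hsum, Int.cast_sum, mul_sum, mul_sum]
    refine sum_congr rfl fun q _ => ?_
    rw [ee_per hd hsq, Int.cast_mul, ← mul_pow]
    congr 1
    push_cast
    congr 1
    field_simp
    ring
  have h3 : (p : ℚ) * ((((dsc d : ℕ) : ℤ) : ℚ) * Bchi d n) =
      ((∑ t ∈ range (dsc d * p), ee d t * (t : ℤ) ^ n : ℤ) : ℚ) -
      ∑ a ∈ range (dsc d), (ee d a : ℚ) * ((dsc d : ℚ) ^ n * R a) := by
    rw [h2, ← sum_sub_distrib, Bchi, sum_filter, mul_sum, mul_sum, mul_sum]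
    refine sum_congr rfl fun a _ => ?_
    have h4 : (dsc d : ℚ) ^ n = (dsc d : ℚ) * (dsc d : ℚ) ^ (n - 1) := by
      rw [← pow_succ']
      congr 1
      omega
    unfold ee
    rw [Int.cast_natCast, h4]
    split_ifs
    · ring
    · push_cast
      ring
  have h5 : O p 2 ((p : ℚ) * ((((dsc d : ℕ) : ℤ) : ℚ) * Bchi d n)) := by
    rw [h3]
    refine O_sub hp hS (O_sum hp _ fun a _ => ?_)
    have h6 := O_mul hp (O_int hp (ee d a)) (O_mul hp (O_pow hp (O_nat hp (dsc d)) n) (hR a))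
    simpa using h6
  exact O_num hp (O_div hp hpD' (O_cancel hp h5))

end Pool.Agent.K3h4.RQ.BERJ
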