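import Pool.Agent.K3h44.RQ.Stm2

/-!
# Project RQ (helper44), brick CNFQ: the class number formula for the cyclotomic unit (helper4)
-/

set_option autoImplicit false

namespace Pool.Agent.K3h4.RQ

open Pool.Agent.K3h44.RQ NumberField Finset

/-! ### quadratic fields -/

lemma no_sqrt {d : ℕ} (h1 : 1 < d) (hd : Squarefree d) (b : ℚ) : b ^ 2 ≠ (d : ℚ) := by
  intro h
  have h2 : IsSquare (d : ℚ) := ⟨b, by rw [← h, sq]⟩
  rw [Rat.isSquare_natCast_iff] at h2
  obtain ⟨k, hk⟩ := h2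
  have h3 : IsUnit k := hd k ⟨1, by rw [hk, mul_one]⟩
  rw [Nat.isUnit_iff] at h3
  rw [h3] at hk
  omega

lemma indep {K : Type} [Field K] [NumberField K] {d : ℕ} (h1 : 1 < d) (hd : Squarefree d) {s : K}
    (hs : s ^ 2 = (d : K)) {a b : ℚ} (h : (a : K) + b * s = 0) : a = 0 ∧ b = 0 := by
  have hb : b = 0 := by
    by_contra hb
    have hb' : (b : K) ≠ 0 := by exact_mod_cast hb
    have h2 : s = ((-(a / b) : ℚ) : K) := by
      push_cast
      field_simp
      linear_combination h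
    rw [h2] at hs
    refine no_sqrt h1 hd (-(a / b)) ?_
    exact_mod_cast hs
  refine ⟨?_, hb⟩
  rw [hb, Rat.cast_zero, zero_mul, add_zero] at h
  exact_mod_cast h

lemma hrep {K : Type} [Field K] [NumberField K] (hK : Module.finrank ℚ K = 2) {d : ℕ}
    (h1 : 1 < d) (hd : Squarefree d) {s : K} (hs : s ^ 2 = (d : K)) (x : K) :
    ∃ a b : ℚ, x = a + b * s := by
  have hli : LinearIndependent ℚ ![(1 : K), s] := by
    rw [LinearIndependent.pair_iff]
    intro a b h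
    rw [Algebra.smul_def, Algebra.smul_def, mul_one, eq_ratCast, eq_ratCast] at h
    exact indep h1 hd hs h
  let B : Module.Basis (Fin 2) ℚ K := basisOfLinearIndependentOfCardEqFinrank hli (by simp [hK])
  have hB : ∀ i, B i = ![(1 : K), s] i := fun i => by
    simp [B]
  refine ⟨B.repr x 0, B.repr x 1, ?_⟩
  have h2 := B.sum_repr x
  rw [Fin.sum_univ_two, hB, hB] at h2
  simp only [Matrix.cons_val_zero, Matrix.cons_val_one] at h2
  rw [Algebra.smul_def, Algebra.smul_def, mul_one, eq_ratCast, eq_ratCast] at h2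
  exact h2.symm

lemma real_emb {K : Type} [Field K] [NumberField K] (hK : Module.finrank ℚ K = 2) {d : ℕ}
    (h1 : 1 < d) (hd : Squarefree d) {s : K} (hs : s ^ 2 = (d : K)) (ψ : K →+* ℂ) :
    ComplexEmbedding.IsReal ψ := by
  rw [ComplexEmbedding.isReal_iff]
  have hw : (ψ s) ^ 2 = (d : ℂ) := by rw [← map_pow, hs, map_natCast]
  have him : (ψ s).im = 0 := by
    have hre := congrArg Complex.re hw
    have hi := congrArg Complex.im hw
    rw [sq, Complex.mul_re, Complex.natCast_re] at hre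
    rw [sq, Complex.mul_im, Complex.natCast_im] at hi
    by_contra h
    have h2 : (ψ s).re = 0 := by
      have : (ψ s).re * (ψ s).im = 0 := by linarith
      exact (mul_eq_zero.1 this).resolve_right h
    rw [h2] at hre
    have h3 : (0 : ℝ) < d := by exact_mod_cast (by omega : 0 < d)
    nlinarith [mul_self_nonneg (ψ s).im]
  have hconj : (starRingEnd ℂ) (ψ s) = ψ s := Complex.conj_eq_iff_im.2 him
  ext x
  obtain ⟨a, b, rfl⟩ := hrep hK h1 hd hs x
  rw [ComplexEmbedding.conjugate_coe_eq, map_add, map_mul, map_ratCast, map_ratCast, map_add,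
    map_mul, map_ratCast, map_ratCast, hconj]

/-! ### the quadratic character -/

lemma one_lt_dsc {d : ℕ} (h1 : 1 < d) : 1 < dsc d := by
  unfold dsc; split_ifs <;> omega

lemma chi_pm {d u : ℕ} (hu : u.Coprime (dsc d)) : chi d u = 1 ∨ chi d u = -1 := by
  unfold chi
  unfold dsc at hu
  split_ifs with h
  · rw [if_pos h] at hu
    exact jacobiSym.eq_one_or_neg_one (by rw [Int.gcd_natCast_natCast]; exact hu)
  · rw [if_neg h] at hu
    refine jacobiSym.eq_one_or_neg_one ?_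
    rw [Int.gcd_natCast_natCast]
    exact (Nat.Coprime.coprime_dvd_right (dvd_mul_left d 4) hu).symm

section

variable {d : ℕ} [NeZero (dsc d)]

lemma sum_chi (g : (ZMod (dsc d))ˣ → ℝ) :
    ∑ u : (ZMod (dsc d))ˣ, (chi d (u : ZMod (dsc d)).val : ℝ) * g u =
      (∑ u ∈ univ.filter (fun u : (ZMod (dsc d))ˣ => chi d (u : ZMod (dsc d)).val = 1), g u) -
      ∑ u ∈ univ.filter (fun u : (ZMod (dsc d))ˣ => chi d (u : ZMod (dsc d)).val = -1), g u := by
  rw [sum_filter, sum_filter, ← sum_sub_distrib]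
  refine sum_congr rfl fun u _ => ?_
  rcases chi_pm (ZMod.val_coe_unit_coprime u) with h | h
  · rw [h]; norm_num
  · rw [h]; norm_num

variable {L : Type} [Field L] [NumberField L]

lemma exists_emb (c : CycM (dsc d) L) :
    ∃ φ : L →+* ℂ, φ c.z = Complex.exp (2 * Real.pi * Complex.I / (dsc d : ℕ)) := by
  obtain ⟨φ₀⟩ : Nonempty (L →+* ℂ) := inferInstance
  have hp0 : IsPrimitiveRoot (φ₀ c.z) (dsc d) := c.prim.map_of_injective φ₀.injective
  have hp1 := Complex.isPrimitiveRoot_exp (dsc d) (NeZero.ne _)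
  obtain ⟨i, hi, hpow⟩ := hp0.eq_pow_of_pow_eq_one hp1.pow_eq_one
  have hco : i.Coprime (dsc d) := by
    rw [← hpow] at hp1
    exact (hp0.pow_iff_coprime (NeZero.pos _) i).1 hp1
  refine ⟨φ₀.comp ((c.σ (ZMod.unitOfCoprime i hco) : L ≃ₐ[ℚ] L) : L →+* L), ?_⟩
  have h1 : (c.σ (ZMod.unitOfCoprime i hco) : L ≃ₐ[ℚ] L) c.z = c.z ^ i := by
    rw [c.σ_z, ZMod.coe_unitOfCoprime, ZMod.val_natCast, Nat.mod_eq_of_lt hi]
  change φ₀ ((c.σ (ZMod.unitOfCoprime i hco) : L ≃ₐ[ℚ] L) c.z) = _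
  rw [h1, map_pow, hpow]

lemma log_PP (h1 : 1 < d) (c : CycM (dsc d) L) (φ : L →+* ℂ)
    (hφ : φ c.z = Complex.exp (2 * Real.pi * Complex.I / (dsc d : ℕ))) (e : ℤ) :
    φ (PP c e) ≠ 0 ∧ Real.log ‖φ (PP c e)‖ =
      ∑ u ∈ univ.filter (fun u : (ZMod (dsc d))ˣ => chi d (u : ZMod (dsc d)).val = e),
        Y682.XT.lg (dsc d) (u : ZMod (dsc d)) := by
  have hp1 : IsPrimitiveRoot (φ c.z) (dsc d) := by
    rw [hφ]
    exact Complex.isPrimitiveRoot_exp (dsc d) (NeZero.ne _)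
  have hne : ∀ u : (ZMod (dsc d))ˣ, (1 : ℂ) - φ c.z ^ (u : ZMod (dsc d)).val ≠ 0 := by
    intro u h
    have h2 : φ c.z ^ (u : ZMod (dsc d)).val = 1 := by linear_combination -h
    have h3 := (hp1.pow_eq_one_iff_dvd _).1 h2
    have h4 := ZMod.val_coe_unit_coprime u
    have h5 := Nat.Coprime.eq_one_of_dvd h4.symm h3
    exact absurd h5 (one_lt_dsc h1).ne'
  have hval : φ (PP c e) = ∏ u ∈ univ.filter (fun u : (ZMod (dsc d))ˣ =>
      chi d (u : ZMod (dsc d)).val = e), ((1 : ℂ) - φ c.z ^ (u : ZMod (dsc d)).val) := by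
    rw [PP, map_prod]
    refine prod_congr rfl fun u _ => ?_
    rw [map_sub, map_one, map_pow]
  refine ⟨?_, ?_⟩
  · rw [hval]
    exact prod_ne_zero_iff.2 fun u _ => hne u
  · rw [hval, norm_prod, Real.log_prod fun u _ => norm_ne_zero_iff.2 (hne u)]
    refine sum_congr rfl fun u _ => ?_
    rw [Y682.XT.lg, hφ, ← Complex.exp_nat_mul]
    congr 4
    ring

end

theorem t_CNFQ : S_CN1 → S_CN3 → S_CYX → S_PRIM → S_SQRT → S_CNFQ := by
  intro hCN1 hCN3 hCYX hPRIM hSQRT d h1 hd _ K _ _ hK s hs L _ _ c j η hη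
  have hcyc : IsCyclotomicExtension {dsc d} ℚ L := hCYX (dsc d) L c
  obtain ⟨χ, hχp, hχ1, hχm, hχ⟩ := hPRIM d h1 hd
  obtain ⟨r, hr, hrσ⟩ := hSQRT d h1 hd (dsc d) dvd_rfl L c
  obtain ⟨f, hf⟩ : ∃ f : K →ₐ[ℚ] L, ∀ x, f x = j x := ⟨j.toRatAlgHom, fun x => rfl⟩
  obtain ⟨F, hF⟩ : ∃ F : IntermediateField ℚ L, F = f.fieldRange := ⟨_, rfl⟩
  obtain ⟨e, he⟩ : ∃ e : K ≃ₐ[ℚ] F, ∀ x, ((e x : F) : L) = j x := by
    subst hF
    exact ⟨f.equivFieldRange, fun x => hf x⟩
  have hF2 : Module.finrank ℚ F = 2 := by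
    rw [← e.toLinearEquiv.finrank_eq, hK]
  have hsF : (e s) ^ 2 = (d : F) := by rw [← map_pow, hs, map_natCast]
  have hreal : ∀ φ : F →+* ℂ, ComplexEmbedding.IsReal φ := real_emb hF2 h1 hd hsF
  have hjs : (j s) ^ 2 = (d : L) := by rw [← map_pow, hs, map_natCast]
  have hr0 : r ≠ 0 := by
    rintro rfl
    have : (d : L) = 0 := by rw [← hr]; ring
    have : d = 0 := by exact_mod_cast this
    omega
  -- the character is trivial on the Galois group over `F`
  have hfix : ∀ σ ∈ F.fixingSubgroup,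
      χ (IsCyclotomicExtension.Rat.galEquivZMod (dsc d) L σ) = 1 := by
    intro σ hσ
    obtain ⟨t, ht⟩ := c.all σ
    have hgal : IsCyclotomicExtension.Rat.galEquivZMod (dsc d) L σ = t := by
      have e1 := IsCyclotomicExtension.Rat.galEquivZMod_apply_of_pow_eq (dsc d) L σ
        (x := c.z) c.prim.pow_eq_one
      have e2 : σ c.z = c.z ^ (t : ZMod (dsc d)).val := by rw [← ht, c.σ_z]
      apply Units.ext
      apply ZMod.val_injective
      exact c.prim.pow_inj (ZMod.val_lt _) (ZMod.val_lt _) (e1.symm.trans e2)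
    have hσjs : σ (j s) = j s := by
      refine (IntermediateField.mem_fixingSubgroup_iff F σ).1 hσ (j s) ?_
      rw [← he s]
      exact (e s).2
    have hσr : σ r = r := by
      have h2 : r ^ 2 = (j s) ^ 2 := by rw [hr, hjs]
      rcases sq_eq_sq_iff_eq_or_eq_neg.1 h2 with h | h
      · rw [h, hσjs]
      · rw [h, map_neg, hσjs]
    have hchi : chi d (t : ZMod (dsc d)).val = 1 := by
      have h2 := hrσ t
      rw [ht, hσr] at h2
      have h3 : ((chi d (t : ZMod (dsc d)).val : ℤ) : L) = 1 :=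
        mul_right_cancel₀ hr0 (by rw [← h2, one_mul])
      exact_mod_cast h3
    have h4 := hχ (t : ZMod (dsc d)).val (ZMod.val_coe_unit_coprime t)
    rw [hgal]
    rw [ZMod.natCast_zmod_val, hchi] at h4
    rw [h4]
    norm_num
  -- the logarithm
  obtain ⟨φ, hφ⟩ := exists_emb c
  have hP1 := log_PP h1 c φ hφ 1
  have hP2 := log_PP h1 c φ hφ (-1)
  have hjη : φ (j ((η : 𝓞 K) : K)) ≠ 0 := by
    intro h
    have h2 := congrArg φ hη
    rw [map_mul, h, zero_mul] at h2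
    exact hP1.1 h2.symm
  have hlog : Real.log ‖φ (j ((η : 𝓞 K) : K))‖ =
      ∑ u : (ZMod (dsc d))ˣ, (chi d (u : ZMod (dsc d)).val : ℝ) *
        Y682.XT.lg (dsc d) (u : ZMod (dsc d)) := by
    have h2 := congrArg (fun x => Real.log ‖φ x‖) hη
    beta_reduce at h2
    rw [map_mul, norm_mul, Real.log_mul (norm_ne_zero_iff.2 hjη) (norm_ne_zero_iff.2 hP2.1),
      hP1.2, hP2.2] at h2
    have h3 := sum_chi (d := d) fun u : (ZMod (dsc d))ˣ =>
      Y682.XT.lg (dsc d) (u : ZMod (dsc d))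
    linarith
  have hsum : ∑ u : (ZMod (dsc d))ˣ, χ (u : ZMod (dsc d)) *
      (Y682.XT.lg (dsc d) (u : ZMod (dsc d)) : ℂ) =
      ((Real.log ‖φ (j ((η : 𝓞 K) : K))‖ : ℝ) : ℂ) := by
    rw [hlog, Complex.ofReal_sum]
    refine sum_congr rfl fun u _ => ?_
    have h4 := hχ (u : ZMod (dsc d)).val (ZMod.val_coe_unit_coprime u)
    rw [ZMod.natCast_zmod_val] at h4
    rw [h4, Complex.ofReal_mul, Complex.ofReal_intCast]
  have hcn1 := hCN1 (dsc d) L F χ hF2 hreal hχp hχ1 hχm hfix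
  rw [hsum, Complex.norm_real, Real.norm_eq_abs] at hcn1
  have hreg : 0 < Units.regulator F := Units.regulator_pos F
  have hD : (0 : ℝ) < Real.sqrt (dsc d : ℕ) := Real.sqrt_pos.2 (by
    exact_mod_cast (lt_trans zero_lt_one (one_lt_dsc h1)))
  have hh : (0 : ℝ) < classNumber F := by exact_mod_cast classNumber_pos F
  have hlog0 : Real.log ‖φ (j ((η : 𝓞 K) : K))‖ ≠ 0 := by
    intro h
    rw [h, abs_zero, mul_zero] at hcn1
    have : 0 < 2 * (classNumber F : ℝ) * Units.regulator F * Real.sqrt (dsc d : ℕ) := by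
      positivity
    exact this.ne' hcn1
  -- transport
  obtain ⟨g, hg⟩ : ∃ g : 𝓞 K ≃+* 𝓞 F, ∀ x, ((g x : 𝓞 F) : F) = e (x : K) :=
    ⟨RingOfIntegers.mapRingEquiv e.toRingEquiv, fun x => rfl⟩
  have hcl : classNumber K = classNumber F := by
    unfold classNumber
    exact Fintype.card_congr (ClassGroup.mulEquiv g).toEquiv
  obtain ⟨gU, hgU⟩ : ∃ gU : (𝓞 K)ˣ ≃* (𝓞 F)ˣ, ∀ u, ((gU u : (𝓞 F)ˣ) : 𝓞 F) = g (u : 𝓞 K) :=
    ⟨Units.mapEquiv g.toMulEquiv, fun x => rfl⟩
  obtain ⟨ψ, hψ⟩ : ∃ ψ : F →+* ℂ, ∀ x : F, ψ x = φ (x : L) :=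
    ⟨φ.comp (algebraMap F L), fun x => rfl⟩
  have hψη : ψ (((gU η : (𝓞 F)ˣ) : 𝓞 F) : F) = φ (j ((η : 𝓞 K) : K)) := by
    rw [hψ, hgU, hg, he]
  obtain ⟨I, hI0, hIreg, hu⟩ := hCN3 F hF2 hreal (gU η) ψ (by rw [hψη]; exact hlog0)
  rw [hψη] at hIreg
  refine ⟨I, (discr F).natAbs, ?_, ?_⟩
  · rw [← hIreg] at hcn1
    have h2 : 2 * (classNumber F : ℝ) * Real.sqrt (dsc d : ℕ) =
        Real.sqrt |(discr F : ℝ)| * I := by
      have h3 : (2 * (classNumber F : ℝ) * Real.sqrt (dsc d : ℕ)) * Units.regulator F =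
          (Real.sqrt |(discr F : ℝ)| * I) * Units.regulator F := by linarith
      exact mul_right_cancel₀ hreg.ne' h3
    have h4 : (2 * (classNumber F : ℝ) * Real.sqrt (dsc d : ℕ)) ^ 2 =
        (Real.sqrt |(discr F : ℝ)| * I) ^ 2 := by rw [h2]
    rw [mul_pow, mul_pow, mul_pow, Real.sq_sqrt (Nat.cast_nonneg _),
      Real.sq_sqrt (abs_nonneg _)] at h4
    have h5 : ((I ^ 2 * (discr F).natAbs : ℕ) : ℝ) =
        ((4 * classNumber K ^ 2 * dsc d : ℕ) : ℝ) := by
      rw [hcl]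
      push_cast
      rw [Nat.cast_natAbs, Int.cast_abs]
      linarith
    exact_mod_cast h5
  · intro u
    obtain ⟨k, hk⟩ := hu (gU u)
    refine ⟨k, ?_⟩
    rcases hk with hk | hk
    · left
      apply gU.injective
      rw [map_pow, map_zpow, hk]
    · right
      apply gU.injective
      rw [map_pow, hk]
      apply Units.ext
      rw [Units.val_neg, hgU, Units.val_neg, map_neg, ← hgU, map_zpow]

end Pool.Agent.K3h4.RQ
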