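import Pool.Agent.K3h44.RQ.Stm3
import Pool.Agent.K3h76.RQ.LAMM

/-!
# Project RQ (helper44), brick RELA: conjugates of a relation under the inertia group (helper4)
-/

set_option autoImplicit false

namespace Pool.Agent.K3h4.RQ

open NumberField IsDedekindDomain HeightOneSpectrum Polynomial
open Pool.Agent.K3h44.RQ Pool.Agent.K3h76.RQ
open WithZero (exp)

section abs

variable {F : Type} [Field F] {v : Valuation F (WithZero (Multiplicative ℤ))}

lemma od_pow_sub {x y : F} {n : ℤ} (hn : 0 ≤ n) (h : Od v n (x - y)) (hy : Od v 0 y) (s : ℕ) :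
    Od v n (x ^ s - y ^ s) := by
  have hx : Od v 0 x := by
    have h1 : x = (x - y) + y := by ring
    rw [h1]
    exact (h.mono hn).add hy
  induction s with
  | zero => simpa using Od.zero
  | succ s ih =>
    have h1 : x ^ (s + 1) - y ^ (s + 1) = x ^ s * (x - y) + (x ^ s - y ^ s) * y := by ring
    rw [h1]
    refine Od.add ?_ ?_
    · have h2 := (hx.pow s).mul h
      simpa using h2
    · have h2 := ih.mul hy
      simpa using h2

/-- `p`-th powers of close elements -/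
lemma od_prime_pow {p : ℕ} (hp : p.Prime) {x y : F} (hy : Od v 0 y) (h : Od v 1 (x - y))
    (hpv : Od v ((p : ℤ) - 1) (p : F)) : Od v ((p : ℤ) - 1) (x ^ p - y ^ p) := by
  have hyi : y ∈ v.integer := by
    rw [Valuation.mem_integer_iff]
    have h1 := hy
    unfold Od at h1
    rwa [neg_zero, WithZero.exp_zero] at h1
  have hdi : x - y ∈ v.integer := by
    rw [Valuation.mem_integer_iff]
    exact h.lt.le
  obtain ⟨r, hr⟩ := exists_add_pow_prime_eq hp (⟨y, hyi⟩ : v.integer) (⟨x - y, hdi⟩ : v.integer)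
  have hr' : x ^ p - y ^ p = (x - y) ^ p + p * (y * (x - y) * (r : F)) := by
    have h3 := congrArg (fun w : v.integer => (w : F)) hr
    push_cast at h3
    rw [add_sub_cancel] at h3
    rw [h3]
    ring
  have hr0 : Od v 0 (r : F) := by
    unfold Od
    rw [neg_zero, WithZero.exp_zero]
    exact r.2
  rw [hr']
  refine Od.add ?_ ?_
  · refine (h.pow p).mono ?_
    omega
  · have h4 := hpv.mul ((hy.mul (h.mono (by norm_num : (0 : ℤ) ≤ 1))).mul hr0)
    simpa using h4

lemma val_one_of_od {x y : F} (h : Od v 1 (x - y)) (hy : v y = 1) : v x = 1 := by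
  have h1 : x = y + (x - y) := by ring
  rw [h1, Valuation.map_add_eq_of_lt_left v (by rw [hy]; exact h.lt), hy]

end abs

section

variable {m : ℕ} [NeZero m] {F : Type} [Field F] [NumberField F]

omit [NeZero m] in
lemma od_one (c : CycM m F) {p k : ℕ} (hp : p.Prime) (hm : m = p * k) (hpk : ¬ p ∣ k)
    (P : HeightOneSpectrum (𝓞 F)) (hP : ((p : ℕ) : 𝓞 F) ∈ P.asIdeal) (s : ℕ) :
    Od (P.valuation F) 1 (1 - (c.z ^ k) ^ s) := by
  have hz := c.unif p k hp hm hpk P hP
  have hl : Od (P.valuation F) 1 (1 - c.z ^ k) := hz.le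
  have h3 : 1 - (c.z ^ k) ^ s = (1 - (c.z ^ k) ^ s - s * (1 - c.z ^ k)) +
    s * (1 - c.z ^ k) := by ring
  rw [h3]
  refine ((lin hl s).mono (by norm_num)).add ?_
  have := (Od.nat (v := P.valuation F) s).mul hl
  rwa [zero_add] at this

lemma od_p (c : CycM m F) {p k : ℕ} (hp : p.Prime) (hm : m = p * k) (hpk : ¬ p ∣ k)
    (P : HeightOneSpectrum (𝓞 F)) (hP : ((p : ℕ) : 𝓞 F) ∈ P.asIdeal) :
    Od (P.valuation F) ((p : ℤ) - 1) (p : F) := by
  have hprim : IsPrimitiveRoot (c.z ^ k) p := by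
    refine c.prim.pow (NeZero.pos m) ?_
    rw [hm, mul_comm]
  obtain ⟨n, hn⟩ : ∃ n, p = n + 1 := ⟨p - 1, by have := hp.pos; omega⟩
  have h1 := (hn ▸ hprim).prod_one_sub_pow_eq_order
  have h2 : (p : F) = ∏ j ∈ Finset.range n, (1 - (c.z ^ k) ^ (j + 1)) := by
    rw [h1, hn]
    push_cast
    ring
  have h4 : ∀ N : ℕ, Od (P.valuation F) N (∏ j ∈ Finset.range N, (1 - (c.z ^ k) ^ (j + 1))) := by
    intro N
    induction N with
    | zero => simpa using Od.one
    | succ N ih =>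
      rw [Finset.prod_range_succ]
      push_cast
      exact ih.mul (od_one c hp hm hpk P hP _)
  rw [h2]
  refine (h4 n).mono ?_
  omega

lemma od_int (P : HeightOneSpectrum (𝓞 F)) (a : 𝓞 F) : Od (P.valuation F) 0 (a : F) := by
  unfold Od
  rw [neg_zero, WithZero.exp_zero]
  exact P.valuation_le_one a

lemma od_isInt (P : HeightOneSpectrum (𝓞 F)) {a : F} (ha : IsIntegral ℤ a) :
    Od (P.valuation F) 0 a := od_int P ⟨a, ha⟩

/-- an automorphism with `σ z = z ζ^s` is the identity modulo `P` -/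
lemma od_sigma (c : CycM m F) {p k : ℕ} (hp : p.Prime) (hm : m = p * k) (hpk : ¬ p ∣ k)
    (P : HeightOneSpectrum (𝓞 F)) (hP : ((p : ℕ) : 𝓞 F) ∈ P.asIdeal) (u : (ZMod m)ˣ)
    (hu : (u : ZMod m).val % k = 1 % k) {g : F} (hg : P.valuation F g ≤ 1) :
    Od (P.valuation F) 1 (c.σ u g - g) := by
  have hm1 : 1 < m := by
    have := hp.two_le
    have hk : 0 < k := Nat.pos_of_ne_zero (fun h => NeZero.ne m (by rw [hm, h, mul_zero]))
    rw [hm]
    nlinarith
  have hu1 : 1 ≤ (u : ZMod m).val := by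
    by_contra h
    have h0 : (u : ZMod m).val = 0 := by omega
    have h2 := ZMod.val_coe_unit_coprime u
    rw [h0, Nat.coprime_zero_left] at h2
    omega
  obtain ⟨s, hs⟩ : k ∣ (u : ZMod m).val - 1 :=
    (Nat.modEq_iff_dvd' hu1).1 (Nat.ModEq.symm hu)
  have hz0 : Od (P.valuation F) 0 c.z := od_isInt P (c.prim.isIntegral (NeZero.pos m))
  have hσz : Od (P.valuation F) 1 (c.σ u c.z - c.z) := by
    have h1 : c.σ u c.z - c.z = c.z * (-(1 - (c.z ^ k) ^ s)) := by
      rw [c.σ_z]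
      have h2 : (u : ZMod m).val = k * s + 1 := by omega
      rw [h2, pow_succ, pow_mul]
      ring
    rw [h1]
    have h3 := hz0.mul (od_one c hp hm hpk P hP s).neg
    simpa using h3
  -- integers
  have hint : ∀ a : 𝓞 F, Od (P.valuation F) 1 (c.σ u (a : F) - (a : F)) := by
    intro a
    obtain ⟨f, hf⟩ := c.gen (a : F) a.2
    have h1 : c.σ u (a : F) = aeval (c.σ u c.z) f := by
      rw [hf]
      exact (Polynomial.aeval_algHom_apply
        (((c.σ u : F ≃ₐ[ℚ] F) : F →ₐ[ℚ] F).restrictScalars ℤ) c.z f).symm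
    rw [h1, hf, aeval_eq_sum_range, aeval_eq_sum_range, ← Finset.sum_sub_distrib]
    refine Od.sum _ fun n _ => ?_
    rw [← smul_sub, zsmul_eq_mul]
    have h2 : Od (P.valuation F) 0 ((f.coeff n : ℤ) : F) := by
      have := od_int P ((f.coeff n : ℤ) : 𝓞 F)
      simpa using this
    have h3 := h2.mul (od_pow_sub (by norm_num) hσz hz0 n)
    simpa using h3
  obtain ⟨a, ⟨b, hb⟩, hab⟩ := P.exists_primeCompl_mul_eq_of_integer g hg
  have hb1 : P.valuation F (b : F) = 1 := by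
    rw [← intValuation_eq_one_iff_mem_primeCompl] at hb
    have h5 := P.valuation_of_algebraMap (K := F) b
    rw [hb] at h5
    exact h5
  have hσb : P.valuation F (c.σ u (b : F)) = 1 := val_one_of_od (hint b) hb1
  have hg0 : Od (P.valuation F) 0 g := by
    unfold Od
    rwa [neg_zero, WithZero.exp_zero]
  have key : c.σ u (b : F) * (c.σ u g - g) =
      (c.σ u (a : F) - (a : F)) - (c.σ u (b : F) - (b : F)) * g := by
    have h5 : g * (b : F) = (a : F) := hab
    rw [← h5, map_mul]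
    ring
  have h6 : Od (P.valuation F) 1 (c.σ u (b : F) * (c.σ u g - g)) := by
    rw [key]
    refine (hint a).sub ?_
    have h7 := (hint b).mul hg0
    simpa using h7
  unfold Od at h6 ⊢
  rwa [map_mul, hσb, one_mul] at h6

end

theorem t_RELA : S_RELA := by
  intro m _ p k hp hp2 hm hpk F _ _ c K _ _ j hj Φ D i g hg hrel P hP hD hΦ v hv
  have hk : 0 < k := Nat.pos_of_ne_zero (fun h => NeZero.ne m (by rw [hm, h, mul_zero]))
  have hprim : IsPrimitiveRoot (c.z ^ k) p := by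
    refine c.prim.pow (NeZero.pos m) ?_
    rw [hm, mul_comm]
  -- the automorphism
  have hcop : Nat.Coprime p k := (Nat.Prime.coprime_iff_not_dvd hp).2 hpk
  obtain ⟨n, hn1, hn2⟩ : ∃ n : ℕ, n ≡ v [MOD p] ∧ n ≡ 1 [MOD k] :=
    ⟨Nat.chineseRemainder hcop v 1, (Nat.chineseRemainder hcop v 1).2.1,
      (Nat.chineseRemainder hcop v 1).2.2⟩
  have hnp : ¬ p ∣ n := fun h => hv ((hn1.dvd_iff dvd_rfl).1 h)
  have hnm : n.Coprime m := by
    rw [hm]
    refine Nat.Coprime.mul_right ((Nat.Prime.coprime_iff_not_dvd hp).2 hnp).symm ?_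
    have h1 := hn2.gcd_eq
    rwa [Nat.gcd_one_left] at h1
  obtain ⟨u, hu⟩ : ∃ u : (ZMod m)ˣ, (u : ZMod m).val = n % m :=
    ⟨ZMod.unitOfCoprime n hnm, by rw [ZMod.coe_unitOfCoprime, ZMod.val_natCast]⟩
  have huk : (u : ZMod m).val % k = 1 % k := by
    rw [hu, Nat.mod_mod_of_dvd n (by rw [hm]; exact dvd_mul_left k p)]
    exact hn2
  have hζ : c.σ u (c.z ^ k) = (c.z ^ k) ^ v := by
    have h1 : n % m ≡ n [MOD p] := by
      change n % m % p = n % p
      exact Nat.mod_mod_of_dvd n (by rw [hm]; exact dvd_mul_right p k)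
    have h2 : n % m ≡ v [MOD orderOf (c.z ^ k)] := by
      rw [← hprim.eq_orderOf]
      exact h1.trans hn1
    rw [map_pow, c.σ_z, ← pow_mul, mul_comm, pow_mul, hu]
    exact (hprim.isOfFinOrder hp.ne_zero).pow_eq_pow_iff_modEq.2 h2
  have hσΦ : c.σ u (evj j (c.z ^ k) Φ) = evj j ((c.z ^ k) ^ v) Φ := by
    have h1 := Polynomial.hom_eval₂ Φ (j.comp (algebraMap (𝓞 K) K))
      ((c.σ u : F ≃ₐ[ℚ] F) : F →+* F) (c.z ^ k)
    have h2 : ((c.σ u : F ≃ₐ[ℚ] F) : F →+* F).comp (j.comp (algebraMap (𝓞 K) K)) =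
        j.comp (algebraMap (𝓞 K) K) := by
      ext x
      exact hj u huk (x : K)
    rw [h2] at h1
    have h3 : ((c.σ u : F ≃ₐ[ℚ] F) : F →+* F) (c.z ^ k) = (c.z ^ k) ^ v := hζ
    rw [h3] at h1
    exact h1
  have hrel2 : evj j ((c.z ^ k) ^ v) Φ = j (D : K) * ((c.z ^ k) ^ v) ^ i * (c.σ u g) ^ p := by
    rw [← hσΦ, hrel, map_mul, map_mul, map_pow (c.σ u) (c.z ^ k) i, map_pow (c.σ u) g p, hζ,
      hj u huk]
  -- valuations
  have hζ1 : P.valuation F (c.z ^ k) = 1 := by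
    have h1 := od_one c hp hm hpk P hP 1
    rw [pow_one] at h1
    refine val_one_of_od (y := 1) ?_ (map_one _)
    have h2 : c.z ^ k - 1 = -(1 - c.z ^ k) := by ring
    rw [h2]
    exact h1.neg
  have hcoef : ∀ a : 𝓞 K, Od (P.valuation F) 0 (j (a : K)) := fun a => by
    refine od_isInt P ?_
    have h1 : IsIntegral ℤ (a : K) := a.2
    exact h1.map (j.toIntAlgHom)
  have hdiff : Od (P.valuation F) 1 (evj j (c.z ^ k) Φ - j ((Φ.eval 1 : 𝓞 K) : K)) := by
    have h1 : j ((Φ.eval 1 : 𝓞 K) : K) = evj j 1 Φ := by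
      have h2 := Polynomial.hom_eval₂ Φ (RingHom.id (𝓞 K)) (j.comp (algebraMap (𝓞 K) K)) 1
      rw [map_one, RingHom.comp_id] at h2
      exact h2
    rw [h1]
    unfold evj
    rw [eval₂_eq_sum_range, eval₂_eq_sum_range, ← Finset.sum_sub_distrib]
    refine Od.sum _ fun s _ => ?_
    rw [← mul_sub]
    have h3 : (c.z ^ k) ^ s - 1 ^ s = -(1 - (c.z ^ k) ^ s) := by rw [one_pow]; ring
    rw [h3]
    have h4 := (hcoef (Φ.coeff s)).mul (od_one c hp hm hpk P hP s).neg
    simpa using h4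
  have hΦζ : P.valuation F (evj j (c.z ^ k) Φ) = 1 := val_one_of_od hdiff hΦ
  have hg1 : P.valuation F g = 1 := by
    rw [hrel, map_mul, map_mul, map_pow (P.valuation F) (c.z ^ k) i,
      map_pow (P.valuation F) g p, hD, hζ1, one_pow, one_mul, one_mul] at hΦζ
    by_contra hne
    rcases lt_or_gt_of_ne hne with h | h
    · exact absurd hΦζ (pow_lt_one₀ zero_le h hp.ne_zero).ne
    · exact absurd hΦζ (one_lt_pow₀ h hp.ne_zero).ne'
  have hσg := od_sigma c hp hm hpk P hP u huk hg1.le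
  have hg0 : Od (P.valuation F) 0 g := by
    unfold Od
    rw [hg1, neg_zero, WithZero.exp_zero]
  have hfin := od_prime_pow hp hg0 hσg (od_p c hp hm hpk P hP)
  have heq : evj j ((c.z ^ k) ^ v) Φ * (c.z ^ k) ^ i - evj j (c.z ^ k) Φ *
      (c.z ^ k) ^ (i * v) = j (D : K) * (c.z ^ k) ^ (v * i + i) * ((c.σ u g) ^ p - g ^ p) := by
    rw [hrel2, hrel, ← pow_mul, mul_comm i v, pow_add]
    ring
  rw [heq, map_mul, map_mul, hD, map_pow (P.valuation F) (c.z ^ k) (v * i + i), hζ1, one_pow,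
    one_mul, one_mul]
  exact hfin

end Pool.Agent.K3h4.RQ
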